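import Pool.Agent.Y138.Ban.Ex

set_option autoImplicit false

namespace Pool.Agent.Results.MP_76953b_al.AllCountableGroups

open Pool.Agent.Y138.Ban

/-- **Finite metric-functional boundaries, classification for all groups.** Let `G` be any group
(not assumed finitely generated) and consider proper, left invariant, integer valued metrics.
(1) If `G` is not virtually cyclic, the boundary of such a metric with unbounded functionals is
infinite (no finite generation, no quasi-isometry hypothesis). (2) If moreover `G` is finitely
generated, unboundedness of the functionals is not needed either. (3) A metric with finite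
boundary exists iff `G` is virtually cyclic or countable and locally finite. (4) A metric whose
boundary has at most one point exists iff `G` is countable and locally finite. (5) A Banach metric
with finite boundary exists iff `G` is virtually cyclic, and then (6) one with boundary contained
in a pair `{β, -β}` exists. -/
theorem result (G : Type*) [Group G] :
    (¬ VirtuallyCyclic G → ∀ d : G → G → ℝ, IsProperIntegerMetric d →
      UnboundedFunctionals d → (boundary d).Infinite) ∧
    (¬ VirtuallyCyclic G → Group.FG G → ∀ d : G → G → ℝ, IsProperIntegerMetric d →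
      (boundary d).Infinite) ∧
    ((∃ d : G → G → ℝ, IsProperIntegerMetric d ∧ (boundary d).Finite) ↔
      VirtuallyCyclic G ∨ (Countable G ∧ IsLocallyFinite G)) ∧
    ((∃ d : G → G → ℝ, IsProperIntegerMetric d ∧ (boundary d).Subsingleton) ↔
      Countable G ∧ IsLocallyFinite G) ∧
    ((∃ d : G → G → ℝ, IsBanachMetric d ∧ (boundary d).Finite) ↔ VirtuallyCyclic G) ∧
    (VirtuallyCyclic G → ∃ (d : G → G → ℝ) (β : G → ℝ), IsBanachMetric d ∧
      boundary d ⊆ {β, -β}) := by
  have hpair : ∀ β : G → ℝ, ({β, -β} : Set (G → ℝ)).Finite := fun β => Set.toFinite _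
  refine ⟨fun h d hd hu hf => h (virtuallyCyclic_of_unbounded hd hu hf),
    fun h hfg d hd hf => ?_, ⟨?_, ?_⟩, ⟨?_, ?_⟩, ⟨?_, ?_⟩, ?_⟩
  · rcases dichotomy_metric hd hf with h1 | ⟨-, h1⟩
    · exact h h1
    · obtain ⟨S, hS⟩ := Group.fg_iff.1 hfg
      have h2 := h1 S hS.2
      rw [hS.1] at h2
      exact h (virtuallyCyclic_of_finite_group (Set.finite_univ_iff.1 (by simpa using h2)))
  · rintro ⟨d, hd, hf⟩
    exact dichotomy_metric hd hf
  · rintro (h | ⟨h1, h2⟩)
    · obtain ⟨d, hd, β, hβ⟩ := exists_banach_of_virtuallyCyclic h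
      exact ⟨d, hd.toIsProperIntegerMetric, (hpair β).subset hβ⟩
    · obtain ⟨d, hd, h0⟩ := exists_metric_of_locallyFinite h2
      exact ⟨d, hd, (Set.finite_singleton _).subset h0⟩
  · rintro ⟨d, hd, hf⟩
    exact locallyFinite_of_subsingleton hd hf
  · rintro ⟨h1, h2⟩
    obtain ⟨d, hd, h0⟩ := exists_metric_of_locallyFinite h2
    exact ⟨d, hd, Set.subsingleton_singleton.anti h0⟩
  · rintro ⟨d, hd, hf⟩
    exact virtuallyCyclic_of_unbounded hd.toIsProperIntegerMetric hd.unbounded hf
  · intro h
    obtain ⟨d, hd, β, hβ⟩ := exists_banach_of_virtuallyCyclic h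
    exact ⟨d, hd, (hpair β).subset hβ⟩
  · intro h
    obtain ⟨d, hd, β, hβ⟩ := exists_banach_of_virtuallyCyclic h
    exact ⟨d, β, hd, hβ⟩

end Pool.Agent.Results.MP_76953b_al.AllCountableGroups
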